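import Pool.Agent.H94.AO.QStmts

set_option linter.unusedVariables false
set_option linter.unusedSectionVars false
set_option synthInstance.maxSize 100000

/-!
Alephs in the extension.
-/

namespace AO

open SW

section
variable {N : Type} [SetStr N] [ZF N]

/-- the value of `f` at `x` if it is in `c`, otherwise empty -/
noncomputable def alx_h (f c x : N) : N := sUn (sep (sing (app f x)) (fun y => E y c))

theorem alx_h_df (f c : N) : Fn1 (fun x : N => alx_h f c x) := by unfold alx_h; infer_instance

theorem alx_h_eq {f c x : N} (h : E (app f x) c) : alx_h f c x = app f x := by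
  refine ext fun z => ?_
  unfold alx_h
  rw [mem_sUn]
  constructor
  · rintro ⟨y, hy, hz⟩
    rw [mem_sep' inferInstance, mem_sing] at hy
    rw [← hy.1]
    exact hz
  · intro hz
    refine ⟨app f x, ?_, hz⟩
    rw [mem_sep' inferInstance, mem_sing]
    exact ⟨rfl, h⟩

theorem alx_h_mem {f c x : N} (h : E emp c) : E (alx_h f c x) c := by
  by_cases hx : E (app f x) c
  · rw [alx_h_eq hx]
    exact hx
  · have : alx_h f c x = emp := by
      refine ext fun z => ⟨fun hz => ?_, fun hz => absurd hz (not_mem_emp z)⟩
      unfold alx_h at hz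
      rw [mem_sUn] at hz
      obtain ⟨y, hy, hz⟩ := hz
      rw [mem_sep' inferInstance, mem_sing] at hy
      rw [hy.1] at hy
      exact absurd hy.2 hx
    rw [this]
    exact h

end

theorem alx (h1 : QFNStmt) (h2 : EMXStmt) : ALXStmt := by
  intro M _ _ _ w l F G hR hF hG _ k
  have ef := embF hG
  have tf := traF hG
  have ex := h2 M F G hG
  induction k with
  | zero =>
    intro v hv
    have hv' : v = om := hv
    rw [hv']
    show emb F G om = om
    exact tf.om
  | succ k ih =>
    intro u hu
    obtain ⟨ho, v, hv, hvu, hu'⟩ := hu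
    refine ⟨tf.ord u ho, emb F G v, ih v hv, ?_, ?_⟩
    · rintro ⟨f, hf⟩
      have hne : u ≠ emp := by
        rintro rfl
        exact hvu ⟨emp, fun y hy => absurd hy (not_mem_emp y)⟩
      have hemp : E (emp : Ext F G) (emb F G u) := by
        rw [← tf.emp, ef.mem]
        exact emp_mem_ord ho hne
      obtain ⟨g, hg, -⟩ := h1 M w l F G hR hF hG v u (fun x => alx_h f (emb F G u) x)
        (hR.alf k v hv) (alx_h_df f (emb F G u)) (fun i _ => alx_h_mem hemp)
      refine hvu ⟨g, fun y hy => ?_⟩
      obtain ⟨x, hx, hxy⟩ := hf (emb F G y) ((ef.mem y u).2 hy)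
      obtain ⟨i, hi, rfl⟩ := ef.trans x v hx
      refine ⟨i, hi, ?_⟩
      have h3 := (hg i hi).2
      have h4 : E (app f (emb F G i)) (emb F G u) := by
        rw [← hxy]
        exact (ef.mem y u).2 hy
      have h3' : alx_h f (emb F G u) (emb F G i) = emb F G (app g i) := h3
      rw [alx_h_eq h4, ← hxy] at h3'
      exact (ef.inj _ _).1 h3'
    · intro a ha
      obtain ⟨b, hb, rfl⟩ := ef.trans a u ha
      exact ex.im _ _ (hu' b hb)

end AO
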