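import Pool.Agent.H74.AO.HStmts
import Pool.Agent.H78.CUR.NU

set_option linter.unusedVariables false
set_option linter.unusedSectionVars false
set_option synthInstance.maxSize 100000

/-!
The 0-1-sequence coded by a set of natural numbers.
-/

namespace AO

open SW

section

variable {N : Type} [SetStr N] [ZF N]

theorem hrb_iff (x : N) (n : ℕ) : rb x n = true ↔ E (nu n) x := by
  unfold rb
  exact @decide_eq_true_iff _ (_)

theorem hrb_eq_iff {x y : N} : rb x = rb y ↔ ∀ n, E (nu n) x ↔ E (nu n) y := by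
  constructor
  · intro h n
    rw [← hrb_iff, ← hrb_iff, h]
  · intro h
    funext n
    rw [Bool.eq_iff_iff, hrb_iff, hrb_iff]
    exact h n

end

theorem ao_hrb : HRBStmt := by
  intro N _ _ hstd
  refine ⟨fun x y hx hy h => ?_, fun x => ?_, fun k => ?_⟩
  · have h' := hrb_eq_iff.1 h
    refine ext fun z => ⟨fun hz => ?_, fun hz => ?_⟩
    · obtain ⟨n, rfl⟩ := hstd z (hx z hz)
      exact (h' n).1 hz
    · obtain ⟨n, rfl⟩ := hstd z (hy z hz)
      exact (h' n).2 hz
  · rw [hrb_eq_iff]
    intro n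
    rw [mem_inter]
    exact ⟨fun h => h.1, fun h => ⟨h, CUR.nu_mem_om n⟩⟩
  · funext n
    rw [Bool.eq_iff_iff, hrb_iff, mem_sing, sgl, decide_eq_true_iff]
    exact ⟨fun h => CUR.nu_inj h, fun h => by rw [h]⟩

end AO
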