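import Pool.Agent.H74.AO.HStmts
import Pool.Agent.H78.CUR.R1
import Pool.Agent.H17.AO.HRB

set_option linter.unusedVariables false
set_option linter.unusedSectionVars false
set_option synthInstance.maxSize 100000

/-!
Cuts in the model.
-/

namespace AO

open SW

theorem hks_cut {N : Type} [SetStr N] [ZF N] (a : N) (x : ℝ) :
    CUR.IsCutOf a x ↔ Sub a om ∧ rb a = cutc x := by
  have key : (∀ j, E (CUR.nu j) a ↔ (CUR.qq j : ℝ) < x) ↔ rb a = cutc x := by
    constructor
    · intro h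
      funext n
      rw [Bool.eq_iff_iff, hrb_iff, cutc, decide_eq_true_iff]
      exact h n
    · intro h j
      have h1 := congrFun h j
      rw [Bool.eq_iff_iff, hrb_iff, cutc, decide_eq_true_iff] at h1
      exact h1
  constructor
  · rintro ⟨h1, h2⟩
    exact ⟨h1, key.1 h2⟩
  · rintro ⟨h1, h2⟩
    exact ⟨h1, key.2 h2⟩

theorem ao_hks : HKSStmt := by
  intro N _ _ c
  refine ⟨fun a x => hks_cut a x, fun a => ?_⟩
  rw [(CUR.cur_r1 N c).memK a]
  constructor
  · rintro ⟨r, hr⟩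
    exact ⟨((hks_cut a r).1 hr).1, r, ((hks_cut a r).1 hr).2⟩
  · rintro ⟨h1, x, hx⟩
    exact ⟨x, (hks_cut a x).2 ⟨h1, hx⟩⟩

end AO
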