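import Pool.Agent.H74.AO.HStmts

set_option linter.unusedVariables false
set_option linter.unusedSectionVars false
set_option synthInstance.maxSize 100000

/-!
The relation between 0-1-sequences is measurable.
-/

namespace AO

open MeasureTheory

theorem hzm_app (l : ℕ) (P : ℕ → Prop) : MeasurableSet {t : ℕ → ℕ | P (t l)} :=
  (measurable_pi_apply l) (MeasurableSet.of_discrete (s := {n : ℕ | P n}))

theorem hzm_ini (k : ℕ) : ∀ P : List ℕ → Prop, MeasurableSet {t : ℕ → ℕ | P (ini t k)} := by
  induction k with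
  | zero =>
    intro P
    exact MeasurableSet.const (P [])
  | succ k ih =>
    intro P
    have h : {t : ℕ → ℕ | P (ini t (k + 1))} =
        ⋃ n : ℕ, ({t : ℕ → ℕ | t k = n} ∩ {t : ℕ → ℕ | P (ini t k ++ [n])}) := by
      ext t
      have h1 : ini t (k + 1) = ini t k ++ [t k] := by
        unfold ini
        rw [List.range_succ, List.map_append]
        rfl
      simp only [Set.mem_iUnion, Set.mem_inter_iff]
      constructor
      · intro h2
        have h3 : P (ini t (k + 1)) := h2
        rw [h1] at h3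
        exact ⟨t k, rfl, h3⟩
      · rintro ⟨n, h2, h3⟩
        have h2' : t k = n := h2
        have h3' : P (ini t k ++ [n]) := h3
        show P (ini t (k + 1))
        rw [h1, h2']
        exact h3'
    rw [h]
    exact MeasurableSet.iUnion fun n =>
      (hzm_app k (fun m => m = n)).inter (ih (fun L => P (L ++ [n])))

theorem hzm_adm : MeasurableSet {t : ℕ → ℕ | Adm t} := by
  have h : {t : ℕ → ℕ | Adm t} = ⋂ (l : ℕ), ⋂ (s : List ℕ), ⋂ (x : ℕ), ⋂ (x' : ℕ),
      ({t : ℕ → ℕ | s ∈ fs (t l)}ᶜ ∪ ({t : ℕ → ℕ | x ≠ x'}ᶜ ∪ ({t : ℕ → ℕ | s ++ [x] ∈ fs (t (l + 1))}ᶜ ∪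
        ({t : ℕ → ℕ | s ++ [x'] ∈ fs (t (l + 1))}ᶜ ∪
          {t : ℕ → ℕ | (Nat.unpair x).1 = lc (ini t (l + 1)) ∧
            (Nat.unpair x').1 = lc (ini t (l + 1))})))) := by
    ext t
    simp only [Set.mem_iInter, Set.mem_union, Set.mem_compl_iff]
    constructor
    · intro ht l s x x'
      by_cases h1 : s ∈ fs (t l)
      · right
        by_cases h2 : x ≠ x'
        · right
          by_cases h3 : s ++ [x] ∈ fs (t (l + 1))
          · right
            by_cases h4 : s ++ [x'] ∈ fs (t (l + 1))
            · right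
              exact ht l s x x' h1 h2 h3 h4
            · left
              exact h4
          · left
            exact h3
        · left
          exact h2
      · left
        exact h1
    · intro ht l s x x' h1 h2 h3 h4
      rcases ht l s x x' with h | h | h | h | h
      · exact absurd h1 h
      · exact absurd h2 h
      · exact absurd h3 h
      · exact absurd h4 h
      · exact h
  rw [h]
  refine MeasurableSet.iInter fun l => MeasurableSet.iInter fun s => MeasurableSet.iInter fun x =>
    MeasurableSet.iInter fun x' => ?_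
  refine (hzm_app l (fun n => s ∈ fs n)).compl.union ((MeasurableSet.const _).compl.union
    ((hzm_app (l + 1) (fun n => s ++ [x] ∈ fs n)).compl.union
      ((hzm_app (l + 1) (fun n => s ++ [x'] ∈ fs n)).compl.union
        (hzm_ini (l + 1) (fun L => (Nat.unpair x).1 = lc L ∧ (Nat.unpair x').1 = lc L)))))

theorem hzm_ee : MeasurableSet {p : (ℕ → ℕ) × (ℕ → ℕ) | EE p.1 p.2} := by
  have h : {p : (ℕ → ℕ) × (ℕ → ℕ) | EE p.1 p.2} =
      (Prod.fst ⁻¹' {t : ℕ → ℕ | Adm t}) ∩ ⋃ (m : ℕ), ⋂ (l : ℕ),
        ({p : (ℕ → ℕ) × (ℕ → ℕ) | m ≤ l}ᶜ ∪ ⋃ (n : ℕ), ((Prod.fst ⁻¹' {t : ℕ → ℕ | t l = n}) ∩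
          (Prod.snd ⁻¹' {a : ℕ → ℕ | ini a l ∈ fs n}))) := by
    ext ⟨t, a⟩
    simp only [Set.mem_inter_iff, Set.mem_iUnion, Set.mem_iInter, Set.mem_union,
      Set.mem_compl_iff, Set.mem_preimage]
    constructor
    · rintro ⟨h1, m, h2⟩
      refine ⟨h1, m, fun l => ?_⟩
      by_cases hl : m ≤ l
      · right
        exact ⟨t l, rfl, h2 l hl⟩
      · left
        exact hl
    · rintro ⟨h1, m, h2⟩
      refine ⟨h1, m, fun l hl => ?_⟩
      rcases h2 l with h | ⟨n, h3, h4⟩
      · exact absurd hl h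
      · have h3' : t l = n := h3
        have h4' : ini a l ∈ fs n := h4
        show ini a l ∈ fs (t l)
        rw [h3']
        exact h4'
  rw [h]
  refine (measurable_fst hzm_adm).inter (MeasurableSet.iUnion fun m => MeasurableSet.iInter fun l =>
    (MeasurableSet.const _).compl.union (MeasurableSet.iUnion fun n =>
      (measurable_fst (hzm_app l (fun k => k = n))).inter
        (measurable_snd (hzm_ini l (fun L => L ∈ fs n)))))

theorem hzm_gc : MeasurableEmbedding gc := by
  refine Measurable.measurableEmbedding ?_ ?_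
  · refine measurable_pi_iff.2 fun n => ?_
    exact (measurable_of_countable (fun k : ℕ => decide (k = (Nat.unpair n).2))).comp
      (measurable_pi_apply (Nat.unpair n).1)
  · intro a b h
    funext i
    have h1 := congrFun h (Nat.pair i (a i))
    unfold gc at h1
    rw [Nat.unpair_pair, Bool.eq_iff_iff, decide_eq_true_iff, decide_eq_true_iff] at h1
    exact (h1.1 rfl).symm

theorem ao_hzm : HZMStmt := by
  show MeasurableSet {t : Rl × Rl | ZZ t.1 t.2}
  have h : {t : Rl × Rl | ZZ t.1 t.2} =
      (Prod.map gc gc) '' {p : (ℕ → ℕ) × (ℕ → ℕ) | EE p.1 p.2} := by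
    ext ⟨Y, W⟩
    constructor
    · rintro ⟨t, a, h1, h2, h3⟩
      exact ⟨(t, a), h3, by
        show (gc t, gc a) = (Y, W)
        rw [show Y = gc t from h1, show W = gc a from h2]⟩
    · rintro ⟨⟨t, a⟩, h3, h4⟩
      have h4' : (gc t, gc a) = (Y, W) := h4
      rw [Prod.mk.injEq] at h4'
      exact ⟨t, a, h4'.1.symm, h4'.2.symm, h3⟩
  rw [h]
  have hemb : MeasurableEmbedding (Prod.map gc gc) := by
    refine Measurable.measurableEmbedding (hzm_gc.measurable.prodMap hzm_gc.measurable) ?_
    exact hzm_gc.injective.prodMap hzm_gc.injective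
  exact hemb.measurableSet_image.2 hzm_ee

end AO
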