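import Pool.Agent.H36.AO.PStmts

set_option linter.unusedVariables false
set_option linter.unusedSectionVars false
set_option synthInstance.maxSize 100000

/-!
Forced membership and restrictions.
-/

namespace AO.BP

open SW

section
variable {M : Type} [SetStr M] [ZF M] {P X : M}

theorem rsf_mono {σ p q j : M} (h : Fo P σ p j) (hpq : Sub p q) : Fo P σ q j :=
  fun r hr hqr => h r hr (fun z hz => hqr z (hpq z hz))

theorem rsf_flmono {σ p q : M} {s : List ℕ} (h : Fl P σ p s) (hpq : Sub p q) : Fl P σ q s :=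
  fun k v hkv => rsf_mono (h k v hkv) hpq

theorem rsf_fo (hX : XFac P X) {σ p j : M} (hσ : Sub σ (prod om (PD P X))) (hp : E p P) :
    Fo P σ p j ↔ Fo P σ (rst p X) j := by
  constructor
  · intro h q hq hpq
    have h1 : Sub (rst p X) (rst q X) := hX.up _ q (hX.rs p hp) hq hpq
    obtain ⟨r, hr, hpr, hqr⟩ := hX.ama p (rst q X) hp (hX.rs q hq) h1
    obtain ⟨r1, hr1, hrr1, q', hq', hq'r1⟩ := h r hr hpr
    have hq'P : E q' (PD P X) := by
      have := hσ _ hq'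
      rw [mem_prod] at this
      exact this.2
    have h2 : Sub (rst q X) (rst r1 X) :=
      hX.up _ r1 (hX.rs q hq) hr1 (fun z hz => hrr1 z (hqr z hz))
    obtain ⟨s, hs, hqs, hr1s⟩ := hX.ama q (rst r1 X) hq (hX.rs r1 hr1) h2
    exact ⟨s, hs, hqs, q', hq', fun z hz => hr1s z (hX.up q' r1 hq'P hr1 hq'r1 z hz)⟩
  · intro h
    exact rsf_mono h (hX.le p)

theorem rsf_fl (hX : XFac P X) {σ p : M} {s : List ℕ} (hσ : Sub σ (prod om (PD P X)))
    (hp : E p P) (h : Fl P σ p s) : Fl P σ (rst p X) s :=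
  fun k v hkv => (rsf_fo hX hσ hp).1 (h k v hkv)

theorem rsf_ok (hX : XFac P X) {σ τ g : M} {m : ℕ} (hσ : Sub σ (prod om (PD P X)))
    (hτ : Sub τ (prod om (PD P X))) (hg : E g P) (h : OK P g σ τ m) :
    OK P (rst g X) σ τ m := by
  have key : ∀ p, E p P → Sub (rst g X) p → ∃ r, E r P ∧ Sub g r ∧ Sub (rst p X) r := by
    intro p hp hgp
    exact hX.ama g (rst p X) hg (hX.rs p hp) (hX.up _ p (hX.rs g hg) hp hgp)
  refine ⟨?_, ?_, ?_, ?_⟩
  · intro p hp hgp n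
    obtain ⟨r, hr, hgr, hpr⟩ := key p hp hgp
    obtain ⟨r1, s, u, hr1, hrr1, hs, hu, hs1, hu1⟩ := h.tot r hr hgr n
    have h2 : Sub (rst p X) (rst r1 X) :=
      hX.up _ r1 (hX.rs p hp) hr1 (fun z hz => hrr1 z (hpr z hz))
    obtain ⟨t, ht, hpt, hr1t⟩ := hX.ama p (rst r1 X) hp (hX.rs r1 hr1) h2
    exact ⟨t, s, u, ht, hpt, hs, hu, rsf_flmono (rsf_fl hX hσ hr1 hs1) hr1t,
      rsf_flmono (rsf_fl hX hτ hr1 hu1) hr1t⟩
  · intro p hp hgp k v v' h1 h2
    obtain ⟨r, hr, hgr, hpr⟩ := key p hp hgp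
    exact h.ons r hr hgr k v v' (rsf_mono ((rsf_fo hX hσ hp).1 h1) hpr)
      (rsf_mono ((rsf_fo hX hσ hp).1 h2) hpr)
  · intro p hp hgp k v v' h1 h2
    obtain ⟨r, hr, hgr, hpr⟩ := key p hp hgp
    exact h.ont r hr hgr k v v' (rsf_mono ((rsf_fo hX hτ hp).1 h1) hpr)
      (rsf_mono ((rsf_fo hX hτ hp).1 h2) hpr)
  · intro p hp hgp s u hu hm h1 h2
    obtain ⟨r, hr, hgr, hpr⟩ := key p hp hgp
    exact h.good r hr hgr s u hu hm (rsf_flmono (rsf_fl hX hσ hp h1) hpr)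
      (rsf_flmono (rsf_fl hX hτ hp h2) hpr)

end

theorem ao_rsf : RSFStmt := by
  intro M _ _ P X hX
  exact ⟨fun σ p j hσ hp => rsf_fo hX hσ hp,
    fun σ τ g m hσ hτ hg h => rsf_ok hX hσ hτ hg h⟩

end AO.BP
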