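import Pool.Agent.H36.AO.PStmts
import Pool.Agent.H17.AO.RSF

set_option linter.unusedVariables false
set_option linter.unusedSectionVars false
set_option synthInstance.maxSize 100000

/-!
Two different initial segments of sequences with promises for the same sequence.
-/

namespace AO.BP

open SW

theorem kca_split {s : List ℕ} {l : ℕ} (h : s.length = l + 1) :
    s.take l ++ [s.getD l 0] = s := by
  have hl : l < s.length := by omega
  have e : s.getD l 0 = s[l] := by
    rw [List.getD_eq_getElem?_getD, List.getElem?_eq_getElem hl, Option.getD_some]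
  rw [e, List.take_append_getElem, ← h, List.take_length]

theorem kca_lv {u : List ℕ} {k n : ℕ} (h : k < n) : lv (u.take n) k = lv u k := by
  unfold lv
  rw [List.getD_eq_getElem?_getD, List.getD_eq_getElem?_getD, List.getElem?_take, if_pos h]

theorem kca_get {s : List ℕ} {n k v : ℕ} (h : (s.take n)[k]? = some v) : s[k]? = some v := by
  rw [List.getElem?_take] at h
  by_cases hk : k < n
  · rwa [if_pos hk] at h
  · rw [if_neg hk] at h
    exact absurd h (by simp)

theorem kca_core {s s' u : List ℕ} {l : ℕ} (hu : u.length = l + 2) (hs : s.length = l + 1)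
    (hs' : s'.length = l + 1) (ht : s.take l = s'.take l) (hne : s ≠ s') (h0 : spl u)
    (h1 : s ∈ lv u (l + 1)) (h2 : s' ∈ lv u (l + 1)) (h3 : s.take l ∈ lv u l) :
    (Nat.unpair (s.getD l 0)).1 = lc (u.take (l + 1)) := by
  have e1 := kca_split hs
  have e2 := kca_split hs'
  rw [← ht] at e2
  refine (h0 l (s.take l) (s.getD l 0) (s'.getD l 0) (by omega) h3 ?_ ?_ ?_).1
  · intro hx
    exact hne (by rw [← e1, ← e2, hx])
  · rw [e1]
    exact h1
  · rw [e2]
    exact h2

section
variable {M : Type} [SetStr M] [ZF M] {P : M}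

theorem kca_fl {σ p : M} {s : List ℕ} (n : ℕ) (h : Fl P σ p s) : Fl P σ p (s.take n) :=
  fun k v hkv => h k v (kca_get hkv)

/-- the members given by a promise -/
theorem kca_good {g σ τ p : M} {m l : ℕ} {s u : List ℕ} (h : OK P g σ τ m) (hp : E p P)
    (hg : Sub g p) (h1 : Fl P σ p s) (h2 : Fl P τ p u) (hs : s.length = l + 1)
    (hu : u.length = l + 2) (hm : m ≤ l) :
    spl u ∧ s ∈ lv u (l + 1) ∧ s.take l ∈ lv u l := by
  have e1 := h.good p hp hg s u (by omega) (by omega) h1 h2
  have hl1 : (s.take l).length = l := by rw [List.length_take]; omega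
  have hl2 : (u.take (l + 1)).length = l + 1 := by rw [List.length_take]; omega
  have e2 := h.good p hp hg (s.take l) (u.take (l + 1)) (by omega) (by omega)
    (kca_fl l h1) (kca_fl (l + 1) h2)
  rw [hl1, kca_lv (Nat.lt_succ_self l)] at e2
  rw [hs] at e1
  exact ⟨e1.1, e1.2, e2.2⟩

end

theorem ao_kca : KCAStmt := by
  intro M _ _ P g σ τ p q m l s s' u hOK hp hq hgp hgq h1 h2 hs hs' ht hne hm hu h3 h4
  obtain ⟨a1, a2, a3⟩ := kca_good hOK hp hgp h1 h3 hs hu hm
  obtain ⟨b1, b2, b3⟩ := kca_good hOK hq hgq h2 h4 hs' hu hm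
  exact kca_core hu hs hs' ht hne a1 a2 b2 a3

theorem ao_kcb : KCBStmt := by
  intro M _ _ P τ p g₁ σ₁ g₂ σ₂ m l n v s₁ s₂ hO1 hO2 hp hg1 hg2 h1 h2 hs1 hs2 ht hne hm hn hF
  obtain ⟨r, s, u, hr, hpr, hs, hu, hFs, hFu⟩ := hO1.tot p hp hg1 (l + 1)
  have hg1r : Sub g₁ r := fun z hz => hpr z (hg1 z hz)
  have hg2r : Sub g₂ r := fun z hz => hpr z (hg2 z hz)
  have h1r := rsf_flmono h1 hpr
  have h2r := rsf_flmono h2 hpr
  obtain ⟨a1, a2, a3⟩ := kca_good hO1 hr hg1r h1r hFu hs1 (by omega) hm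
  obtain ⟨b1, b2, b3⟩ := kca_good hO2 hr hg2r h2r hFu hs2 (by omega) hm
  refine ⟨u.take (l + 1), kca_core (by omega) hs1 hs2 ht hne a1 a2 b2 a3, ?_⟩
  have hnu : n < u.length := by omega
  rw [List.getElem?_take, if_pos (by omega), List.getElem?_eq_getElem hnu]
  congr 1
  exact hO1.ont r hr hg1r n _ _ (hFu n _ (List.getElem?_eq_getElem hnu)) (rsf_mono hF hpr)

end AO.BP
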