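import Pool.Agent.H94.AO.QStmts

set_option linter.unusedVariables false
set_option linter.unusedSectionVars false
set_option synthInstance.maxSize 100000

/-!
The regular cardinal exists.
-/

namespace AO

open SW

theorem lex_alf {M : Type} [SetStr M] [ZF M] {z : M} (hz : Ord z) (hom : E om z)
    (hn : ∀ v, E v z → ∃ u, E u z ∧ ¬ Img v u) : ∀ (k : ℕ) (v : M), Alf k v → E v z
  | 0, v, h => by
      have h' : v = om := h
      rw [h']
      exact hom
  | k + 1, w, h => by
      obtain ⟨ho, v, hv, -, hw⟩ := h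
      obtain ⟨u, hu, hvu⟩ := hn v (lex_alf hz hom hn k v hv)
      rcases ho.tri (hz.mem hu) with h1 | h1 | h1
      · exact hz.trans hu h1
      · rw [h1]
        exact hu
      · exact absurd (hw u h1) hvu

theorem lex (h1 : HNXStmt) (h2 : LRGStmt) (h3 : ALFStmt) : LEXStmt := by
  intro M _ _
  obtain ⟨z, hz, hom, hn⟩ := h1 M
  obtain ⟨l, hl, hzl, hsuc, hreg⟩ := h2 M z hz hom
  obtain ⟨w, hw⟩ := (h3 M).ex 1
  have half : ∀ (k : ℕ) (v : M), Alf k v → E v l := fun k v hv =>
    hl.trans hzl (lex_alf hz hom hn k v hv)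
  exact ⟨w, l, {
    ord := hl
    w1 := ((h3 M).w1 w).1 hw
    wl := half 1 w hw
    suc := hsuc
    alf := half
    reg := hreg }⟩

end AO
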